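import Pool.Agent.V1169.Ant4

/-!
Langton's ant (rule word `RL`) has an initial configuration for which it is recurrent but
confined to a vertical strip of width `8`.  Hence the dichotomy
`Rec = ∅` or `Rec = ℤ²` fails for non-trivial generalised ants.
-/

namespace Pool.Agent.Results.MP_d11917_an.ConfinedLangtonAnt

open Pool.Agent.V1169.Ant

theorem result :
    (¬ ∀ (m : ℕ) [NeZero m] (w : Fin m → Turn), (∃ i, w i = Turn.L) → (∃ i, w i = Turn.R) →
        ∀ C : Config m, Rec w C = ∅ ∨ Rec w C = Set.univ) ∧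
      ∃ C : Config 2, (Rec langton C).Nonempty ∧
        ∀ t : ℕ, -3 ≤ ((step langton)^[t] C).pos.1 ∧ ((step langton)^[t] C).pos.1 ≤ 4 := by
  have key : ∃ C : Config 2, (Rec langton C).Nonempty ∧
      ∀ t : ℕ, -3 ≤ ((step langton)^[t] C).pos.1 ∧ ((step langton)^[t] C).pos.1 ≤ 4 :=
    ⟨start, ⟨_, start_rec⟩, fun t => start_safe t⟩
  refine ⟨?_, key⟩
  intro hall
  obtain ⟨C, hne, hsafe⟩ := key
  rcases hall 2 langton ⟨1, rfl⟩ ⟨0, rfl⟩ C with h | h
  · rw [h] at hne
    exact Set.not_nonempty_empty hne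
  · have hm : ((10, 0) : ℤ × ℤ) ∈ Rec langton C := by rw [h]; trivial
    have hm' : {t : ℕ | ((step langton)^[t] C).pos = (10, 0)}.Infinite := hm
    obtain ⟨t, ht⟩ := hm'.nonempty
    have h1 := (hsafe t).2
    have h2 : ((step langton)^[t] C).pos = (10, 0) := ht
    rw [h2] at h1
    norm_num at h1

end Pool.Agent.Results.MP_d11917_an.ConfinedLangtonAnt
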